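import Mathlib

/-! The size function `|x|^2 + |x⁻¹|^2` on `GL n ℝ` and its convexity along `exp A * x * exp C`. -/

namespace Pool.Agent.Lib.MP_320961_gt.Tr

open Matrix NormedSpace Filter Topology

variable {n : Type} [Fintype n] [DecidableEq n]

/-- The square of the Frobenius norm. -/
def nf (M : Matrix n n ℝ) : ℝ := (Mᵀ * M).trace

omit [DecidableEq n] in
theorem nf_eq (M : Matrix n n ℝ) : nf M = ∑ i, ∑ j, M i j ^ 2 := by
  simp only [nf, trace, diag, mul_apply, transpose_apply, sq]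
  exact Finset.sum_comm

omit [DecidableEq n] in
theorem nf_nonneg (M : Matrix n n ℝ) : 0 ≤ nf M := by
  rw [nf_eq]
  positivity

omit [DecidableEq n] in
theorem sq_le_nf (M : Matrix n n ℝ) (i j : n) : M i j ^ 2 ≤ nf M := by
  rw [nf_eq]
  exact (Finset.single_le_sum (f := fun j => M i j ^ 2) (fun _ _ => sq_nonneg _)
    (Finset.mem_univ j)).trans (Finset.single_le_sum (f := fun i => ∑ j, M i j ^ 2)
      (fun _ _ => by positivity) (Finset.mem_univ i))

omit [DecidableEq n] in
theorem eq_zero_of_nf {M : Matrix n n ℝ} (h : nf M ≤ 0) : M = 0 := by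
  ext i j
  exact pow_eq_zero_iff two_ne_zero |>.1 (le_antisymm ((sq_le_nf M i j).trans h) (sq_nonneg _))

omit [DecidableEq n] in
theorem continuous_nf : Continuous (nf : Matrix n n ℝ → ℝ) :=
  (continuous_id.matrix_transpose.matrix_mul continuous_id).matrix_trace

omit [DecidableEq n] in
theorem isCompact_nf (r : ℝ) : IsCompact {M : Matrix n n ℝ | nf M ≤ r} := by
  refine (isCompact_Icc (a := -(r + 1)) (b := r + 1)).matrix.of_isClosed_subset
    (isClosed_le continuous_nf continuous_const) fun M hM i j => ?_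
  have h : M i j ^ 2 ≤ r := (sq_le_nf M i j).trans hM
  constructor <;> nlinarith [sq_nonneg (M i j + 1), sq_nonneg (M i j - 1), sq_nonneg (M i j)]

theorem nf_left {k : Matrix n n ℝ} (hk : kᵀ * k = 1) (M : Matrix n n ℝ) : nf (k * M) = nf M := by
  rw [nf, transpose_mul, Matrix.mul_assoc, ← Matrix.mul_assoc kᵀ, hk, Matrix.one_mul, nf]

theorem nf_right {k : Matrix n n ℝ} (hk : kᵀ * k = 1) (M : Matrix n n ℝ) : nf (M * k) = nf M := by
  rw [nf, trace_mul_comm, transpose_mul, Matrix.mul_assoc, ← Matrix.mul_assoc k,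
    mul_eq_one_comm.1 hk, Matrix.one_mul, trace_mul_comm, nf]

theorem spec {A : Matrix n n ℝ} (hA : Aᵀ = A) :
    ∃ (U : Matrix n n ℝ) (d : n → ℝ), Uᵀ * U = 1 ∧ A = U * diagonal d * Uᵀ := by
  have hH : A.IsHermitian := by
    rw [IsHermitian, conjTranspose_eq_transpose_of_trivial, hA]
  refine ⟨hH.eigenvectorUnitary, hH.eigenvalues, ?_, ?_⟩
  · simpa [star_eq_conjTranspose] using hH.eigenvectorUnitary.2.1
  · simpa [star_eq_conjTranspose] using hH.spectral_theorem

theorem exp_orth {k : Matrix n n ℝ} (hk : kᵀ * k = 1) (A : Matrix n n ℝ) :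
    exp (k * A * kᵀ) = k * exp A * kᵀ := by
  rw [← inv_eq_left_inv hk]
  exact Matrix.exp_conj k A (IsUnit.of_mul_eq_one kᵀ (mul_eq_one_comm.1 hk))

theorem exp_spec {U : Matrix n n ℝ} (hU : Uᵀ * U = 1) (d : n → ℝ) :
    exp (U * diagonal d * Uᵀ) = U * diagonal (fun i => Real.exp (d i)) * Uᵀ := by
  rw [exp_orth hU, Matrix.exp_diagonal, Pi.exp_def, Real.exp_eq_exp_ℝ]

theorem diag_ineq (a c : n → ℝ) (N : Matrix n n ℝ) :
    nf N + 2 * (diagonal a * (N * Nᵀ)).trace + 2 * (diagonal c * (Nᵀ * N)).trace ≤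
      nf (diagonal (fun i => Real.exp (a i)) * N * diagonal fun i => Real.exp (c i)) := by
  have h1 : (diagonal a * (N * Nᵀ)).trace = ∑ i, ∑ j, a i * N i j ^ 2 := by
    simp only [trace, diag, diagonal_mul]
    simp only [mul_apply, transpose_apply, sq, Finset.mul_sum]
  have h2 : (diagonal c * (Nᵀ * N)).trace = ∑ i, ∑ j, c j * N i j ^ 2 := by
    simp only [trace, diag, diagonal_mul]
    simp only [mul_apply, transpose_apply, sq, Finset.mul_sum]
    exact Finset.sum_comm
  rw [h1, h2, nf_eq, nf_eq]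
  simp only [Finset.mul_sum, ← Finset.sum_add_distrib, mul_diagonal, diagonal_mul]
  refine Finset.sum_le_sum fun i _ => Finset.sum_le_sum fun j _ => ?_
  have h := Real.add_one_le_exp (a i + a i + (c j + c j))
  rw [Real.exp_add, Real.exp_add, Real.exp_add] at h
  nlinarith [mul_le_mul_of_nonneg_right h (sq_nonneg (N i j))]

theorem main_ineq {A C : Matrix n n ℝ} (hA : Aᵀ = A) (hC : Cᵀ = C) (M : Matrix n n ℝ) :
    nf M + 2 * (A * (M * Mᵀ)).trace + 2 * (C * (Mᵀ * M)).trace ≤ nf (exp A * M * exp C) := by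
  obtain ⟨U, a, hU, rfl⟩ := spec hA
  obtain ⟨V, c, hV, rfl⟩ := spec hC
  have hU' := mul_eq_one_comm.1 hU
  have hV' := mul_eq_one_comm.1 hV
  have u1 : ∀ X : Matrix n n ℝ, U * (Uᵀ * X) = X := fun X => by
    rw [← Matrix.mul_assoc, hU', Matrix.one_mul]
  have v1 : ∀ X : Matrix n n ℝ, V * (Vᵀ * X) = X := fun X => by
    rw [← Matrix.mul_assoc, hV', Matrix.one_mul]
  have h := diag_ineq a c (Uᵀ * M * V)
  rw [nf_right hV, nf_left (by rwa [transpose_transpose]), ← nf_left hU (_ * _ * diagonal _),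
    ← nf_right (k := Vᵀ) (by rwa [transpose_transpose]) (U * _)] at h
  rw [exp_spec hU, exp_spec hV, Matrix.mul_assoc U _ Uᵀ, Matrix.mul_assoc U, trace_mul_comm U,
    Matrix.mul_assoc V _ Vᵀ, Matrix.mul_assoc V, trace_mul_comm V]
  simpa only [transpose_mul, transpose_transpose, Matrix.mul_assoc, u1, v1] using h

/-- The exponential with values in the group. -/
noncomputable def ex (X : Matrix n n ℝ) : GL n ℝ :=
  ⟨exp X, exp (-X),
    by rw [← Matrix.exp_add_of_commute _ _ (Commute.refl X).neg_right, add_neg_cancel, exp_zero],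
    by rw [← Matrix.exp_add_of_commute _ _ (Commute.refl X).neg_left, neg_add_cancel, exp_zero]⟩

theorem ex_val (X : Matrix n n ℝ) : (ex X).val = exp X := rfl

theorem ex_inv (X : Matrix n n ℝ) : (ex X)⁻¹ = ex (-X) := Units.ext rfl

theorem ex_zero : ex (0 : Matrix n n ℝ) = 1 := Units.ext exp_zero

open scoped Matrix.Norms.Operator in
theorem continuous_ex : Continuous (ex : Matrix n n ℝ → GL n ℝ) :=
  Units.continuous_iff.2 ⟨exp_continuous, exp_continuous.comp continuous_neg⟩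

/-- The size function. -/
noncomputable def sz (x : GL n ℝ) : ℝ := nf x.val + nf x⁻¹.val

/-- Left gradient of the size. -/
noncomputable def Dl (x : GL n ℝ) : Matrix n n ℝ := x.val * x.valᵀ - x⁻¹.valᵀ * x⁻¹.val

/-- Right gradient of the size. -/
noncomputable def Dr (x : GL n ℝ) : Matrix n n ℝ := x.valᵀ * x.val - x⁻¹.val * x⁻¹.valᵀ

theorem continuous_sz : Continuous (sz : GL n ℝ → ℝ) :=
  (continuous_nf.comp Units.continuous_val).add (continuous_nf.comp Units.continuous_coe_inv)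

theorem continuous_Dl : Continuous (Dl : GL n ℝ → Matrix n n ℝ) :=
  (Units.continuous_val.matrix_mul Units.continuous_val.matrix_transpose).sub
    (Units.continuous_coe_inv.matrix_transpose.matrix_mul Units.continuous_coe_inv)

theorem continuous_Dr : Continuous (Dr : GL n ℝ → Matrix n n ℝ) :=
  (Units.continuous_val.matrix_transpose.matrix_mul Units.continuous_val).sub
    (Units.continuous_coe_inv.matrix_mul Units.continuous_coe_inv.matrix_transpose)

theorem isCompact_sz (r : ℝ) : IsCompact {x : GL n ℝ | sz x ≤ r} := by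
  refine (Units.isClosedEmbedding_embedProduct.isCompact_preimage ((isCompact_nf r).prod
    ((isCompact_nf r).image MulOpposite.continuous_op))).of_isClosed_subset
    (isClosed_le continuous_sz continuous_const) fun x hx => ?_
  have h : nf x.val + nf x⁻¹.val ≤ r := hx
  exact ⟨show nf x.val ≤ r by linarith [nf_nonneg x⁻¹.val],
    x⁻¹.val, show nf x⁻¹.val ≤ r by linarith [nf_nonneg x.val], rfl⟩

theorem sz_ge {A C : Matrix n n ℝ} (hA : Aᵀ = A) (hC : Cᵀ = C) (x : GL n ℝ) :
    sz x + 2 * (A * Dl x).trace + 2 * (C * Dr x).trace ≤ sz (ex A * x * ex C) := by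
  have h1 := main_ineq hA hC x.val
  have h2 := main_ineq (A := -C) (C := -A) (by rw [transpose_neg, hC]) (by rw [transpose_neg, hA])
    x⁻¹.val
  simp only [sz, Dl, Dr, _root_.mul_inv_rev, ex_inv, Units.val_mul, ex_val, Matrix.mul_sub,
    trace_sub, ← Matrix.mul_assoc, Matrix.neg_mul, trace_neg] at h1 h2 ⊢
  linarith

theorem inv_orth {k : GL n ℝ} (hk : k.valᵀ * k.val = 1) : k⁻¹.val = k.valᵀ :=
  Units.inv_eq_of_mul_eq_one_left hk

theorem orth_inv {k : GL n ℝ} (hk : k.valᵀ * k.val = 1) : k⁻¹.valᵀ * k⁻¹.val = 1 := by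
  rw [inv_orth hk, transpose_transpose, mul_eq_one_comm.1 hk]

theorem sz_left {k : GL n ℝ} (hk : k.valᵀ * k.val = 1) (x : GL n ℝ) : sz (k * x) = sz x := by
  rw [sz, _root_.mul_inv_rev, Units.val_mul, Units.val_mul, nf_left hk, nf_right (orth_inv hk), sz]

theorem sz_right {k : GL n ℝ} (hk : k.valᵀ * k.val = 1) (x : GL n ℝ) : sz (x * k) = sz x := by
  rw [sz, _root_.mul_inv_rev, Units.val_mul, Units.val_mul, nf_right hk, nf_left (orth_inv hk), sz]

theorem ex_orth {k : GL n ℝ} (hk : k.valᵀ * k.val = 1) (A : Matrix n n ℝ) :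
    ex (k.val * A * k.valᵀ) = k * ex A * k⁻¹ :=
  Units.ext (by rw [ex_val, exp_orth hk, Units.val_mul, Units.val_mul, inv_orth hk, ex_val])

theorem Dl_ex {S : Matrix n n ℝ} (hS : Sᵀ = S) : Dl (ex S) = Dr (ex S) := by
  simp only [Dl, Dr, ex_inv, ex_val, ← Matrix.exp_transpose, transpose_neg, hS]

theorem Dl_left {k : GL n ℝ} (hk : k.valᵀ * k.val = 1) (x : GL n ℝ) :
    Dl (k * x) = k.val * Dl x * k.valᵀ := by
  simp only [Dl, _root_.mul_inv_rev, Units.val_mul, inv_orth hk, transpose_mul,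
    transpose_transpose, Matrix.mul_sub, Matrix.sub_mul, Matrix.mul_assoc]

theorem Dr_left {k : GL n ℝ} (hk : k.valᵀ * k.val = 1) (x : GL n ℝ) : Dr (k * x) = Dr x := by
  have h : ∀ X : Matrix n n ℝ, k.valᵀ * (k.val * X) = X := fun X => by
    rw [← Matrix.mul_assoc, hk, Matrix.one_mul]
  simp only [Dr, _root_.mul_inv_rev, Units.val_mul, inv_orth hk, transpose_mul,
    transpose_transpose, Matrix.mul_assoc, h]

theorem klein {S T : Matrix n n ℝ} (hS : Sᵀ = S) (hT : Tᵀ = T) :
    sz (ex T) + 2 * ((S - T) * Dl (ex T)).trace ≤ sz (ex S) := by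
  have h := sz_ge (C := -T) hS (by rw [transpose_neg, hT]) (ex T)
  rw [← ex_inv, mul_inv_cancel_right, ← Dl_ex hT, Matrix.neg_mul, trace_neg] at h
  rw [Matrix.sub_mul, trace_sub]
  linarith

theorem coer {S : Matrix n n ℝ} (hS : Sᵀ = S) : sz (1 : GL n ℝ) + 2 * nf S ≤ sz (ex S) := by
  obtain ⟨U, d, hU, rfl⟩ := spec hS
  have e : ∀ v : n → ℝ, nf (U * diagonal v * Uᵀ) = ∑ i, v i ^ 2 := fun v => by
    rw [nf_right (by rw [transpose_transpose, mul_eq_one_comm.1 hU]), nf_left hU, nf,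
      diagonal_transpose, diagonal_mul_diagonal, trace_diagonal]
    simp only [sq]
  have e1 : nf (1 : Matrix n n ℝ) = ∑ _i : n, (1 : ℝ) := by simp [nf]
  have e2 : -(U * diagonal d * Uᵀ) = U * diagonal (fun i => -d i) * Uᵀ := by
    rw [← diagonal_neg, Matrix.mul_neg, Matrix.neg_mul]
  rw [sz, sz, ex_inv, ex_val, ex_val, e2, exp_spec hU, exp_spec hU, e, e, e, inv_one,
    Units.val_one, e1, Finset.mul_sum]
  simp only [← Finset.sum_add_distrib]
  refine Finset.sum_le_sum fun i _ => ?_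
  rw [sq (Real.exp _), sq (Real.exp _), ← Real.exp_add, ← Real.exp_add]
  rcases le_total 0 (d i) with h | h
  · nlinarith [Real.quadratic_le_exp_of_nonneg (add_nonneg h h),
      Real.add_one_le_exp (-d i + -d i)]
  · nlinarith [Real.quadratic_le_exp_of_nonneg (add_nonneg (neg_nonneg.2 h) (neg_nonneg.2 h)),
      Real.add_one_le_exp (d i + d i)]

theorem lim_ge {φ : ℝ → ℝ} (hφ : Continuous φ) {c : ℝ} (h : ∀ s, 0 < s → c ≤ φ s) : c ≤ φ 0 :=
  ge_of_tendsto ((hφ.tendsto 0).mono_left (nhdsWithin_le_nhds (s := Set.Ioi 0)))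
    (eventually_mem_nhdsWithin.mono h)

end Pool.Agent.Lib.MP_320961_gt.Tr
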