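import Mathlib

/-! A positive path of Lagrangian subspaces cannot stay transversal to a fixed one. -/

namespace Pool.Agent.Lib.MP_320961_gt.Tr

open Filter Topology

theorem mas_proj {V : Type} [NormedAddCommGroup V] [NormedSpace ℝ V] [FiniteDimensional ℝ V]
    (X Y : Submodule ℝ V) (h : Disjoint X Y) :
    ∃ Q : V →L[ℝ] V, (∀ x ∈ X, Q x = x) ∧ ∀ y ∈ Y, Q y = 0 := by
  obtain ⟨Z, hZ, hc⟩ := h.symm.exists_isCompl
  refine ⟨LinearMap.toContinuousLinearMap (X.subtype ∘ₗ X.projectionOnto Z hc.symm),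
    fun x hx => ?_, fun y hy => ?_⟩
  · exact congrArg Subtype.val (Submodule.projectionOnto_apply_left hc.symm ⟨x, hx⟩)
  · exact congrArg Subtype.val (Submodule.projectionOnto_apply_of_mem_right hc.symm (hZ hy))

theorem mas_cont {V ι : Type} [NormedAddCommGroup V] [NormedSpace ℝ V] (Q : V →L[ℝ] V)
    (l : Filter ι) (W : ι → V →L[ℝ] V) (hW : Tendsto W l (𝓝 1)) (y : ι → V) (x : V)
    (hy : ∀ i, Q (y i) = y i) (hx : ∀ i, Q (W i (y i)) = x) :
    Tendsto (fun i => W i (y i)) l (𝓝 x) := by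
  have h0 : Tendsto (fun i => ‖W i - 1‖) l (𝓝 0) := tendsto_iff_norm_sub_tendsto_zero.1 hW
  have h1 : Tendsto (fun i => ‖Q‖ * ‖W i - 1‖) l (𝓝 0) := by simpa using h0.const_mul ‖Q‖
  have h2 : Tendsto (fun i => (1 + ‖Q‖) * (2 * ‖x‖) * ‖W i - 1‖) l (𝓝 0) := by
    simpa using h0.const_mul ((1 + ‖Q‖) * (2 * ‖x‖))
  rw [tendsto_iff_norm_sub_tendsto_zero]
  refine squeeze_zero' (Eventually.of_forall fun _ => norm_nonneg _) ?_ h2
  filter_upwards [h1.eventually_le_const (show (0 : ℝ) < 1 / 2 by norm_num)] with i hi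
  obtain ⟨z, hz⟩ : ∃ z, z = (W i - 1) (y i) := ⟨_, rfl⟩
  have e1 : W i (y i) = y i + z := by simp [hz]
  have e2 : x = y i + Q z := by rw [← hx i, e1, map_add, hy]
  have n1 : ‖z‖ ≤ ‖W i - 1‖ * ‖y i‖ := hz ▸ (W i - 1).le_opNorm _
  have n2 : ‖Q z‖ ≤ ‖Q‖ * ‖z‖ := Q.le_opNorm _
  have n3 : ‖y i‖ ≤ ‖x‖ + ‖Q z‖ := by
    have := norm_sub_le x (Q z)
    rwa [show x - Q z = y i by rw [e2, add_sub_cancel_right]] at this
  have n4 := mul_le_mul_of_nonneg_left n1 (norm_nonneg Q)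
  have n5 := mul_le_mul_of_nonneg_right hi (norm_nonneg (y i))
  have n6 : ‖y i‖ ≤ 2 * ‖x‖ := by linarith
  have n7 := mul_le_mul_of_nonneg_left n6 (norm_nonneg (W i - 1))
  have n8 : ‖W i (y i) - x‖ ≤ ‖z‖ + ‖Q z‖ := by
    rw [show W i (y i) - x = z - Q z by rw [e1, e2]; abel]
    exact norm_sub_le _ _
  have n9 := mul_le_mul_of_nonneg_left (n1.trans n7) (norm_nonneg Q)
  linarith

theorem mas_rec {V : Type} [NormedAddCommGroup V] [NormedSpace ℝ V] [FiniteDimensional ℝ V]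
    (U : ℝ → V →L[ℝ] V) (C : ℝ) (hadd : ∀ s t x, U (s + t) x = U s (U t x)) (h0 : U 0 = 1)
    (hC : ∀ t, ‖U t‖ ≤ C) :
    ∃ τ : ℕ → ℝ, (∀ j, 1 ≤ τ j) ∧ Tendsto (fun j => U (τ j)) atTop (𝓝 1) := by
  have := FiniteDimensional.proper_real (V →L[ℝ] V)
  obtain ⟨L, -, φ, hφ, hL⟩ := tendsto_subseq_of_bounded (x := fun m : ℕ => U m)
    (Metric.isBounded_closedBall (x := (0 : V →L[ℝ] V)) (r := C))
    fun m => mem_closedBall_zero_iff.2 (hC _)
  refine ⟨fun j => (φ (j + 1) : ℝ) - φ j, fun j => ?_, ?_⟩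
  · have : φ j + 1 ≤ φ (j + 1) := hφ (Nat.lt_succ_self j)
    have : (φ j : ℝ) + 1 ≤ φ (j + 1) := by exact_mod_cast this
    linarith
  have h1 : Tendsto (fun j => C * ‖U (φ (j + 1)) - U (φ j)‖) atTop (𝓝 0) := by
    simpa using (((hL.comp (tendsto_add_atTop_nat 1)).sub hL).norm).const_mul C
  rw [tendsto_iff_norm_sub_tendsto_zero]
  refine squeeze_zero (fun _ => norm_nonneg _) (fun j => ?_) h1
  have e : U ((φ (j + 1) : ℝ) - φ j) - 1 = U (-(φ j : ℝ)) * (U (φ (j + 1)) - U (φ j)) := by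
    ext x
    simp only [sub_apply, mul_apply_eq_comp, map_sub, ← hadd,
      neg_add_cancel, h0, neg_add_eq_sub]
  rw [e]
  exact (norm_mul_le _ _).trans (mul_le_mul_of_nonneg_right (hC _) (norm_nonneg _))

theorem maslov {V : Type} [NormedAddCommGroup V] [NormedSpace ℝ V] [FiniteDimensional ℝ V]
    (β : V →L[ℝ] V →L[ℝ] ℝ) (P A B : Submodule ℝ V) (J : V →L[ℝ] V) (U : ℝ → V →L[ℝ] V) (C : ℝ)
    (hs : ∀ x y, β x y = β y x) (hpos : ∀ x ∈ P, β x x ≤ 0 → x = 0)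
    (hAP : A ≤ P) (hBP : B ≤ P) (hJP : ∀ x ∈ P, J x ∈ P) (hUP : ∀ t, ∀ x ∈ P, U t x ∈ P)
    (hJ : ∀ x y, β (J x) y = -β x (J y)) (hU : ∀ t x y, β (U t x) (U t y) = β x y)
    (hUJ : ∀ t x, U t (J x) = J (U t x)) (hadd : ∀ s t x, U (s + t) x = U s (U t x))
    (h0 : U 0 = 1) (hd : HasDerivAt U J 0) (hC : ∀ t, ‖U t‖ ≤ C)
    (hA : ∀ a ∈ A, ∀ a' ∈ A, β (J a) a' = 0) (hB : ∀ b ∈ B, ∀ b' ∈ B, β (J b) b' = 0)
    (hsum : ∀ t, ∀ v ∈ P, ∃ a ∈ A, ∃ b ∈ B, v = U t a + b) : ∀ v ∈ P, J v = 0 := by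
  have iso : ∀ t, ∀ a ∈ A, ∀ a' ∈ A, β (J (U t a)) (U t a') = 0 := fun t a ha a' ha' => by
    rw [← hUJ, hU, hA a ha a' ha']
  have orth : ∀ t, ∀ d ∈ P, (∀ a ∈ A, β d (U t a) = 0) → (∀ b ∈ B, β d b = 0) → d = 0 := by
    intro t d hdP h1 h2
    obtain ⟨a, ha, b, hb, e⟩ := hsum t d hdP
    refine hpos d hdP (le_of_eq ?_)
    nth_rewrite 2 [e]
    rw [map_add, h1 a ha, h2 b hb, add_zero]
  have dis : ∀ t, ∀ a ∈ A, ∀ b ∈ B, J (U t a) = J b → J b = 0 := fun t a ha b hb e =>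
    orth t _ (hJP _ (hBP hb)) (fun a' ha' => e ▸ iso t a ha a' ha') fun b' hb' => hB b hb b' hb'
  have proj : ∀ t, ∃ Q : V →L[ℝ] V, (∀ a ∈ A, Q (J (U t a)) = J (U t a)) ∧
      ∀ b ∈ B, Q (J b) = 0 := fun t => by
    obtain ⟨Q, h1, h2⟩ := mas_proj (A.map (J.comp (U t)).toLinearMap) (B.map J.toLinearMap)
      (Submodule.disjoint_def.2 fun x hx hy => by
        obtain ⟨a, ha, rfl⟩ := hx
        obtain ⟨b, hb, e⟩ := hy
        exact e.symm.trans (dis t a ha b hb e.symm))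
    exact ⟨Q, fun a ha => h1 _ ⟨a, ha, rfl⟩, fun b hb => h2 _ ⟨b, hb, rfl⟩⟩
  have hJA : ∀ v ∈ A, J v = 0 := by
    intro v hv
    choose a ha b hb e using fun t => hsum t v (hAP hv)
    have eu : ∀ t, U t (a t) = v - b t := fun t => eq_sub_of_add_eq (e t).symm
    have sh : ∀ s t x, U (s - t) (U t x) = U s x := fun s t x => by rw [← hadd, sub_add_cancel]
    have key : ∀ s t, β (J (U s (a s))) v - β (J (U t (a t))) v =
        -β (J (U s (a s))) (U (s - t) (U t (a t)) - U t (a t)) := fun s t => by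
      rw [map_sub, sh, iso s _ (ha s) _ (ha t), eu s, eu t]
      simp only [map_sub, sub_apply]
      have h1 := hA v hv v hv
      rw [hB _ (hb s) _ (hb t), hJ (b t) v, hs (b t)]
      linarith
    have cont : ∀ {ι : Type} (l : Filter ι) (s : ι → ℝ) (t : ℝ),
        Tendsto (fun i => U (s i - t)) l (𝓝 1) →
        Tendsto (fun i => J (U (s i) (a (s i)))) l (𝓝 (J (U t (a t)))) := by
      intro ι l s t h
      obtain ⟨Q, h1, h2⟩ := proj t
      have e1 : ∀ i, U (s i - t) (J (U t (a (s i)))) = J (U (s i) (a (s i))) := fun i => by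
        rw [hUJ, sh]
      simpa only [e1] using mas_cont Q l _ h (fun i => J (U t (a (s i)))) (J (U t (a t)))
        (fun i => h1 _ (ha _)) fun i => by
          rw [e1, ← h1 _ (ha t), eu, eu, map_sub, map_sub, map_sub, map_sub, h2 _ (hb _),
            h2 _ (hb _)]
    have der : ∀ t, HasDerivAt (fun s => β (J (U s (a s))) v)
        (-β (J (U t (a t))) (J (U t (a t)))) t := fun t => by
      have d1 : HasDerivAt (fun s => U (s - t)) J t := by
        exact HasDerivAt.comp_sub_const t t (by rwa [sub_self])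
      have d2 : HasDerivAt (fun s => U (s - t) (U t (a t))) (J (U t (a t))) t := by
        simpa using d1.clm_apply (hasDerivAt_const t (U t (a t)))
      have c1 : Tendsto (fun s => U (s - t)) (𝓝[≠] t) (𝓝 1) := by
        have := d1.continuousAt.tendsto.mono_left (nhdsWithin_le_nhds (s := {t}ᶜ))
        rwa [sub_self, h0] at this
      rw [hasDerivAt_iff_tendsto_slope] at d2 ⊢
      have c2 := ((β.continuous₂.tendsto (_, _)).comp
        ((cont _ (fun s => s) t c1).prodMk_nhds d2)).neg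
      refine c2.congr fun s => ?_
      simp only [Function.comp, Function.uncurry, slope_def_module, key, sub_self, h0, map_smul,
        one_apply_eq_self, smul_neg]
    have nn : ∀ t, 0 ≤ β (J (U t (a t))) (J (U t (a t))) := fun t => by
      by_contra h
      rw [hpos _ (hJP _ (hUP t _ (hAP (ha t)))) (not_le.1 h).le] at h
      simp at h
    have anti : Antitone fun s => β (J (U s (a s))) v :=
      antitone_of_hasDerivAt_nonpos der fun t => neg_nonpos.2 (nn t)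
    obtain ⟨τ, hτ, hl⟩ := mas_rec U C hadd h0 hC
    have l1 : Tendsto (fun j => β (J (U (τ j) (a (τ j)))) v) atTop (𝓝 (β (J (U 0 (a 0))) v)) :=
      ((β.flip v).continuous.tendsto _).comp (cont _ τ 0 (by simpa only [sub_zero] using hl))
    have l2 : β (J (U 0 (a 0))) v ≤ β (J (U 1 (a 1))) v :=
      le_of_tendsto' l1 fun j => anti (hτ j)
    have l3 : (fun s => β (J (U s (a s))) v) =ᶠ[𝓝 (1 / 2)] fun _ => β (J (U 0 (a 0))) v := by
      filter_upwards [Icc_mem_nhds (show (0 : ℝ) < 1 / 2 by norm_num)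
        (show (1 / 2 : ℝ) < 1 by norm_num)] with s hs'
      exact le_antisymm (anti hs'.1) (l2.trans (anti hs'.2))
    have l4 := (der (1 / 2)).unique ((hasDerivAt_const _ _).congr_of_eventuallyEq l3)
    have l5 := hpos _ (hJP _ (hUP _ _ (hAP (ha (1 / 2))))) (neg_eq_zero.1 l4).le
    rw [eu, map_sub, sub_eq_zero] at l5
    exact l5.trans (dis 0 v hv _ (hb _) (by rw [h0]; exact l5))
  intro v hv
  obtain ⟨a, ha, b, hb, rfl⟩ := hsum 0 v hv
  have hb0 : J b = 0 := orth 0 _ (hJP _ (hBP hb))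
    (fun a' ha' => by rw [hJ, ← hUJ, hJA a' ha', map_zero, map_zero, neg_zero])
    fun b' hb' => hB b hb b' hb'
  rw [map_add, hb0, ← hUJ, hJA a ha, map_zero, add_zero]

end Pool.Agent.Lib.MP_320961_gt.Tr
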