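import Pool.Agent.Lib.MP_320961_gt.Tr.Basic
import Pool.Agent.Lib.MP_320961_gt.Tr.Maslov

/-! Bounded double cosets force a decomposition of the Lie algebra. -/

namespace Pool.Agent.Lib.MP_320961_gt.Tr

open Matrix NormedSpace Filter Topology

variable {n : Type} [Fintype n] [DecidableEq n]

theorem exists_grad (p : Submodule ℝ (Matrix n n ℝ)) (hp : ∀ S ∈ p, Sᵀ = S) {X : Matrix n n ℝ} :
    ∃ S ∈ p, ∀ Y ∈ p, 2 * (Y * Dl (ex S)).trace = (Y * X).trace := by
  let φ : Matrix n n ℝ → ℝ := fun S => sz (ex S) - (S * X).trace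
  have hφ : Continuous φ := (continuous_sz.comp continuous_ex).sub
    (continuous_id.matrix_mul continuous_const).matrix_trace
  have hK : IsCompact ((p : Set (Matrix n n ℝ)) ∩ {S | φ S ≤ φ 0}) := by
    refine (isCompact_nf (nf X)).of_isClosed_subset
      (p.closed_of_finiteDimensional.inter (isClosed_le hφ continuous_const)) fun S hS => ?_
    have h1 : sz (ex S) - (S * X).trace ≤ sz (ex 0) - ((0 : Matrix n n ℝ) * X).trace := hS.2
    have h2 := coer (hp S hS.1)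
    have h3 := nf_nonneg (S - X)
    have h4 : (Xᵀ * S).trace = (S * X).trace := by
      rw [← trace_transpose, transpose_mul, transpose_transpose, hp S hS.1]
    rw [nf, transpose_sub, Matrix.sub_mul, Matrix.mul_sub, Matrix.mul_sub, trace_sub, trace_sub,
      trace_sub, h4, ← nf, ← nf, hp S hS.1] at h3
    rw [ex_zero, Matrix.zero_mul, trace_zero] at h1
    change nf S ≤ nf X
    linarith [nf_nonneg S, nf_nonneg X]
  obtain ⟨S, hS, hmin⟩ := hK.exists_isMinOn ⟨0, p.zero_mem, le_refl (φ 0)⟩ hφ.continuousOn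
  have hm : ∀ T ∈ p, φ S ≤ φ T := fun T hT => by
    rcases le_total (φ T) (φ 0) with h | h
    · exact hmin ⟨hT, h⟩
    · exact le_trans hS.2 h
  have key : ∀ Y ∈ p, (Y * X).trace ≤ 2 * (Y * Dl (ex S)).trace := fun Y hY => by
    have h := lim_ge (φ := fun s : ℝ => 2 * (Y * Dl (ex (S + s • Y))).trace) (c := (Y * X).trace)
      (continuous_const.mul (continuous_const.matrix_mul (continuous_Dl.comp (continuous_ex.comp
        (continuous_const.add (continuous_id.smul continuous_const))))).matrix_trace) fun s hs => by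
      have hT := p.add_mem hS.1 (p.smul_mem s hY)
      have h1 := klein (hp S hS.1) (hp _ hT)
      have h2 : sz (ex S) - (S * X).trace ≤ sz (ex (S + s • Y)) - ((S + s • Y) * X).trace :=
        hm _ hT
      rw [sub_add_cancel_left, Matrix.neg_mul, trace_neg, Matrix.smul_mul, trace_smul,
        smul_eq_mul] at h1
      rw [Matrix.add_mul, trace_add, Matrix.smul_mul, trace_smul, smul_eq_mul] at h2
      exact le_of_mul_le_mul_left (by linarith) hs
    simpa only [zero_smul, add_zero] using h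
  refine ⟨S, hS.1, fun Y hY => le_antisymm ?_ (key Y hY)⟩
  have h := key (-Y) (p.neg_mem hY)
  rw [Matrix.neg_mul, Matrix.neg_mul, trace_neg, trace_neg] at h
  linarith

/-- The symmetric part of a space of matrices. -/
def sy (g : Submodule ℝ (Matrix n n ℝ)) : Submodule ℝ (Matrix n n ℝ) where
  carrier := {X | X ∈ g ∧ Xᵀ = X}
  add_mem' := fun h k => ⟨g.add_mem h.1 k.1, by rw [transpose_add, h.2, k.2]⟩
  zero_mem' := ⟨g.zero_mem, transpose_zero⟩
  smul_mem' := fun c _ h => ⟨g.smul_mem c h.1, by rw [transpose_smul, h.2]⟩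

/-- The skew elements commuting with the symmetric part. -/
def cpt (g : Submodule ℝ (Matrix n n ℝ)) : Submodule ℝ (Matrix n n ℝ) where
  carrier := {X | X ∈ g ∧ Xᵀ = -X ∧ ∀ S ∈ g, Sᵀ = S → X * S = S * X}
  add_mem' := fun h k => ⟨g.add_mem h.1 k.1, by rw [transpose_add, h.2.1, k.2.1, neg_add],
    fun S a b => by rw [Matrix.add_mul, Matrix.mul_add, h.2.2 S a b, k.2.2 S a b]⟩
  zero_mem' := ⟨g.zero_mem, by simp, by simp⟩
  smul_mem' := fun c _ h => ⟨g.smul_mem c h.1, by rw [transpose_smul, h.2.1, smul_neg],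
    fun S a b => by rw [Matrix.smul_mul, Matrix.mul_smul, h.2.2 S a b]⟩

omit [DecidableEq n] in
theorem le_of_orth {W P : Submodule ℝ (Matrix n n ℝ)} (hWP : W ≤ P)
    (h : ∀ X ∈ P, (∀ Y ∈ W, (Yᵀ * X).trace = 0) → X = 0) : P ≤ W := by
  let B : LinearMap.BilinForm ℝ (Matrix n n ℝ) := LinearMap.mk₂ ℝ (fun Y X => (Yᵀ * X).trace)
    (fun _ _ _ => by rw [transpose_add, Matrix.add_mul, trace_add])
    (fun _ _ _ => by rw [transpose_smul, Matrix.smul_mul, trace_smul])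
    (fun _ _ _ => by rw [Matrix.mul_add, trace_add])
    (fun _ _ _ => by rw [Matrix.mul_smul, trace_smul])
  have hr : B.IsRefl := fun x y (k : (xᵀ * y).trace = 0) => show (yᵀ * x).trace = 0 by
    rw [← trace_transpose, transpose_mul, transpose_transpose, k]
  have hc := B.isCompl_orthogonal_of_restrict_nondegenerate (W := W) hr
    ⟨fun x hx => Subtype.ext (eq_zero_of_nf (hx x).le),
      fun x hx => Subtype.ext (eq_zero_of_nf (hx x).le)⟩
  intro X hX
  obtain ⟨w, hw, z, hz, rfl⟩ := Submodule.mem_sup.1 (hc.sup_eq_top.symm ▸ Submodule.mem_top :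
    X ∈ W ⊔ B.orthogonal W)
  rw [h z ((P.add_mem_iff_right (hWP hw)).1 hX) hz, add_zero]
  exact hw

/-- A subalgebra stable under transposition. -/
structure Sub (g a : Submodule ℝ (Matrix n n ℝ)) : Prop where
  le : a ≤ g
  tr : ∀ X ∈ a, Xᵀ ∈ a
  br : ∀ X ∈ a, ∀ Y ∈ a, X * Y - Y * X ∈ a

/-- Every double coset has an element of bounded size. -/
def Bdd (G : Subgroup (GL n ℝ)) (a b : Submodule ℝ (Matrix n n ℝ)) (R : ℝ) : Prop :=
  ∀ x ∈ G, ∃ A ∈ sy a, ∃ B ∈ sy b, sz (ex A * x * ex B) ≤ R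

variable {G : Subgroup (GL n ℝ)} {g a b : Submodule ℝ (Matrix n n ℝ)} {R : ℝ} {k : GL n ℝ}

theorem sym_zero (he : ∀ X ∈ g, ex X ∈ G) (ha : a ≤ g) (hb : b ≤ g) (h : Bdd G a b R)
    {X : Matrix n n ℝ} (hX : Xᵀ = X) (hg : X ∈ g) (h1 : ∀ A ∈ sy a, (A * X).trace = 0)
    (h2 : ∀ B ∈ sy b, (B * X).trace = 0) : X = 0 := by
  obtain ⟨K, hK⟩ := (isCompact_nf (n := n) R).bddAbove_image
    (f := fun S => 2 * (X * Dl (ex S)).trace) (continuous_const.mul (continuous_const.matrix_mul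
      (continuous_Dl.comp continuous_ex)).matrix_trace).continuousOn
  have key : ∀ t : ℝ, t * nf X ≤ K := fun t => by
    obtain ⟨S, hS, hY⟩ := exists_grad (sy g) (fun _ k => k.2) (X := t • X)
    obtain ⟨A, hA, B, hB, hR⟩ := h _ (he S hS.1)
    have k1 := sz_ge hA.2 hB.2 (ex S)
    rw [← Dl_ex hS.2, hY A ⟨ha hA.1, hA.2⟩, hY B ⟨hb hB.1, hB.2⟩, Matrix.mul_smul,
      Matrix.mul_smul, trace_smul, trace_smul, h1 A hA, h2 B hB, smul_zero] at k1
    have k2 := coer hS.2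
    have k3 : 0 ≤ sz (1 : GL n ℝ) := add_nonneg (nf_nonneg _) (nf_nonneg _)
    have k4 := hK ⟨S, show nf S ≤ R by linarith [nf_nonneg S], rfl⟩
    have k5 := hY X ⟨hg, hX⟩
    rw [Matrix.mul_smul, trace_smul, smul_eq_mul] at k5
    rw [nf, hX, ← k5]
    exact k4
  refine eq_zero_of_nf (le_of_not_gt fun k => ?_)
  have := key ((K + 1) / nf X)
  rw [div_mul_cancel₀ _ k.ne'] at this
  linarith

theorem sym_split (he : ∀ X ∈ g, ex X ∈ G) (ha : a ≤ g) (hb : b ≤ g) (h : Bdd G a b R) :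
    sy g ≤ sy a ⊔ sy b :=
  le_of_orth (sup_le (fun _ k => ⟨ha k.1, k.2⟩) fun _ k => ⟨hb k.1, k.2⟩) fun _ hX k =>
    sym_zero he ha hb h hX.2 hX.1 (fun A hA => hA.2 ▸ k A (Submodule.mem_sup_left hA))
      fun B hB => hB.2 ▸ k B (Submodule.mem_sup_right hB)

/-- The conjugate of a space of matrices by an orthogonal element. -/
def tw (k : GL n ℝ) (a : Submodule ℝ (Matrix n n ℝ)) : Submodule ℝ (Matrix n n ℝ) :=
  a.map (LinearMap.mulLeftRight ℝ (k.val, k.valᵀ))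

theorem mem_tw {X : Matrix n n ℝ} : X ∈ tw k a ↔ ∃ A ∈ a, k.val * A * k.valᵀ = X := Iff.rfl

theorem Sub.tw (h : Sub g a) (hk : k.valᵀ * k.val = 1)
    (had : ∀ X ∈ g, k.val * X * k.valᵀ ∈ g) : Sub g (tw k a) where
  le := fun _ ⟨A, hA, e⟩ => e ▸ had A (h.le hA)
  tr := fun X hX => by
    obtain ⟨A, hA, rfl⟩ := mem_tw.1 hX
    exact mem_tw.2 ⟨Aᵀ, h.tr A hA, by
      simp only [transpose_mul, transpose_transpose, Matrix.mul_assoc]⟩
  br := fun X hX Y hY => by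
    obtain ⟨A, hA, rfl⟩ := mem_tw.1 hX
    obtain ⟨B, hB, rfl⟩ := mem_tw.1 hY
    have e : ∀ X : Matrix n n ℝ, k.valᵀ * (k.val * X) = X := fun X => by
      rw [← Matrix.mul_assoc, hk, Matrix.one_mul]
    exact mem_tw.2 ⟨_, h.br A hA B hB, by
      simp only [Matrix.mul_sub, Matrix.sub_mul, Matrix.mul_assoc, e]⟩

theorem Bdd.tw (h : Bdd G a b R) (hk : k.valᵀ * k.val = 1) (hG : k ∈ G) :
    Bdd G (tw k a) b R := fun x hx => by
  obtain ⟨A, hA, B, hB, hR⟩ := h _ (G.mul_mem (G.inv_mem hG) hx)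
  refine ⟨_, ⟨mem_tw.2 ⟨A, hA.1, rfl⟩, ?_⟩, B, hB, ?_⟩
  · simp only [transpose_mul, transpose_transpose, Matrix.mul_assoc, hA.2]
  · rw [← sz_left hk] at hR
    rw [ex_orth hk]
    simpa only [mul_assoc] using hR

theorem sy_tw (hk : k.valᵀ * k.val = 1) {X : Matrix n n ℝ} (h : X ∈ sy (tw k a)) :
    ∃ A ∈ sy a, k.val * A * k.valᵀ = X := by
  obtain ⟨A, hA, rfl⟩ := mem_tw.1 h.1
  refine ⟨A, ⟨hA, ?_⟩, rfl⟩
  have e : ∀ X : Matrix n n ℝ, k.valᵀ * (k.val * X) = X := fun X => by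
    rw [← Matrix.mul_assoc, hk, Matrix.one_mul]
  simpa only [transpose_mul, transpose_transpose, Matrix.mul_assoc, e, hk, Matrix.mul_one] using
    congrArg (fun Y => k.valᵀ * Y * k.val) h.2

theorem ex_skew {Z : Matrix n n ℝ} (hZ : Zᵀ = -Z) (t : ℝ) : (exp (t • Z))ᵀ = exp (t • -Z) := by
  rw [← Matrix.exp_transpose, transpose_smul, hZ]

theorem orth_skew {Z : Matrix n n ℝ} (hZ : Zᵀ = -Z) (t : ℝ) :
    (ex (t • Z)).valᵀ * (ex (t • Z)).val = 1 := by
  rw [ex_val, ex_skew hZ, smul_neg]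
  exact (ex (t • Z)).inv_val

theorem maslov_alg {V : Type} [NormedRing V] [NormedAlgebra ℝ V] [FiniteDimensional ℝ V]
    (T : V →ₗ[ℝ] ℝ) (hT : ∀ x y, T (x * y) = T (y * x)) (P A B : Submodule ℝ V) (Z : V) (C : ℝ)
    (hpos : ∀ x ∈ P, T (x * x) ≤ 0 → x = 0) (hAP : A ≤ P) (hBP : B ≤ P)
    (hJP : ∀ x ∈ P, Z * x - x * Z ∈ P)
    (hUP : ∀ t : ℝ, ∀ x ∈ P, exp (t • Z) * x * exp (t • -Z) ∈ P)
    (hC : ∀ t : ℝ, ‖exp (t • Z)‖ ≤ C)
    (hA : ∀ x ∈ A, ∀ y ∈ A, T ((Z * x - x * Z) * y) = 0)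
    (hB : ∀ x ∈ B, ∀ y ∈ B, T ((Z * x - x * Z) * y) = 0)
    (hsum : ∀ t : ℝ, ∀ v ∈ P, ∃ a ∈ A, ∃ b ∈ B, v = exp (t • Z) * a * exp (t • -Z) + b) :
    ∀ v ∈ P, Z * v - v * Z = 0 := by
  have : CompleteSpace V := FiniteDimensional.complete ℝ V
  let _ : NormedAlgebra ℚ V := NormedAlgebra.restrictScalars ℚ ℝ V
  let M := ContinuousLinearMap.mulLeftRight ℝ V
  let β : V →L[ℝ] V →L[ℝ] ℝ :=
    (ContinuousLinearMap.compL ℝ _ _ _ (LinearMap.toContinuousLinearMap T)).comp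
      (ContinuousLinearMap.mul ℝ V)
  have hβ : ∀ x y, β x y = T (x * y) := fun _ _ => rfl
  let J : V →L[ℝ] V := M Z 1 + M 1 (-Z)
  have hJ : ∀ x, J x = Z * x - x * Z := fun x => by simp [J, M, sub_eq_add_neg]
  let U : ℝ → V →L[ℝ] V := fun t => M (exp (t • Z)) (exp (t • -Z))
  have hU : ∀ t x, U t x = exp (t • Z) * x * exp (t • -Z) := fun _ _ => rfl
  have hi : ∀ (t : ℝ) (x : V), exp (t • -Z) * (exp (t • Z) * x) = x := fun t x => by
    rw [← mul_assoc, ← exp_add_of_commute (((Commute.refl Z).neg_left.smul_left t).smul_right t),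
      ← smul_add, neg_add_cancel, smul_zero, exp_zero, one_mul]
  have hc : ∀ t : ℝ, Commute Z (exp (t • Z)) := fun t =>
    ((Commute.refl Z).smul_right t).exp_right
  have hc' : ∀ t : ℝ, Commute Z (exp (t • -Z)) := fun t =>
    ((Commute.refl Z).neg_right.smul_right t).exp_right
  have key := maslov β P A B J U (C * C) (fun x y => hT x y) hpos hAP hBP
    (fun x hx => hJ x ▸ hJP x hx) hUP
    (fun x y => by
      rw [hβ, hβ, hJ, hJ, sub_mul, mul_sub, map_sub, map_sub, neg_sub, mul_assoc Z, hT Z,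
        mul_assoc, mul_assoc])
    (fun t x y => by
      rw [hβ, hβ, hU, hU, mul_assoc, mul_assoc _ y, hi, ← mul_assoc, hT, mul_assoc, hi])
    (fun t x => by
      rw [hU, hJ, hJ, hU, mul_sub, sub_mul, ← mul_assoc, ← (hc t).eq,
        mul_assoc (_ * x) _ Z, ← (hc' t).eq]
      simp only [mul_assoc])
    (fun s t x => by
      rw [hU, hU, hU, add_smul, add_comm s, add_smul,
        exp_add_of_commute (((Commute.refl Z).smul_left s).smul_right t),
        exp_add_of_commute (((Commute.refl (-Z)).smul_left t).smul_right s)]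
      simp only [mul_assoc])
    (by ext1 x; simp [hU])
    (by
      have d := M.hasDerivAt_of_bilinear (fun _ => hasDerivAt_exp_smul_const Z (0 : ℝ))
        fun _ => hasDerivAt_exp_smul_const (-Z) (0 : ℝ)
      rw [zero_smul, zero_smul, exp_zero, one_mul, one_mul, add_comm] at d
      exact d)
    (fun t => by
      have h2 := hC (-t)
      rw [neg_smul, ← smul_neg] at h2
      exact (ContinuousLinearMap.opNorm_mulLeftRight_apply_apply_le ℝ V _ _).trans
        (mul_le_mul (hC t) h2 (norm_nonneg _) ((norm_nonneg _).trans (hC t))))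
    (fun x hx y hy => by rw [hβ, hJ, hA x hx y hy]) (fun x hx y hy => by rw [hβ, hJ, hB x hx y hy])
    hsum
  exact fun v hv => hJ v ▸ key v hv

open scoped Matrix.Norms.Operator in
theorem skew_cpt (he : ∀ X ∈ g, ex X ∈ G) (hg : Sub g g)
    (had : ∀ x ∈ G, ∀ X ∈ g, x.val * X * x⁻¹.val ∈ g) (ha : Sub g a) (hb : Sub g b)
    (h : Bdd G a b R) {Z : Matrix n n ℝ} (hZ : Zᵀ = -Z) (hZg : Z ∈ g)
    (h1 : ∀ A ∈ a, (A * Z).trace = 0) (h2 : ∀ B ∈ b, (B * Z).trace = 0) : Z ∈ cpt g := by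
  have hk : ∀ t : ℝ, ∀ X ∈ g, (ex (t • Z)).val * X * (ex (t • Z)).valᵀ ∈ g := fun t X hX => by
    rw [← inv_orth (orth_skew hZ t)]
    exact had _ (he _ (g.smul_mem t hZg)) X hX
  obtain ⟨C, hC⟩ := (isCompact_nf (n := n) (nf (1 : Matrix n n ℝ))).exists_bound_of_continuousOn
    (f := fun x => x) continuous_id.continuousOn
  have iso : ∀ c, Sub g c → (∀ A ∈ c, (A * Z).trace = 0) →
      ∀ x ∈ sy c, ∀ y ∈ sy c, ((Z * x - x * Z) * y).trace = 0 := fun c k1 k2 x hx y hy => by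
    rw [← k2 _ (k1.br x hx.1 y hy.1), Matrix.sub_mul, Matrix.sub_mul, trace_sub,
      trace_sub, Matrix.mul_assoc Z, trace_mul_comm Z, Matrix.mul_assoc x Z, trace_mul_comm x,
      Matrix.mul_assoc Z, trace_mul_comm Z]
  have k1 : ∀ x ∈ sy g, (x * x).trace ≤ 0 → x = 0 := fun x hx k =>
    eq_zero_of_nf (by rwa [nf, hx.2])
  have k2 : ∀ x ∈ sy g, Z * x - x * Z ∈ sy g := fun x hx => ⟨hg.br Z hZg x hx.1, by
    rw [transpose_sub, transpose_mul, transpose_mul, hx.2, hZ, Matrix.mul_neg, Matrix.neg_mul,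
      neg_sub_neg]⟩
  have k3 : ∀ t : ℝ, ∀ x ∈ sy g, exp (t • Z) * x * exp (t • -Z) ∈ sy g := fun t x hx => by
    rw [← ex_skew hZ]
    exact ⟨hk t x hx.1, by
      simp only [transpose_mul, transpose_transpose, Matrix.mul_assoc, hx.2]⟩
  have k4 : ∀ t : ℝ, ‖exp (t • Z)‖ ≤ C := fun t =>
    hC (exp (t • Z)) (show nf (exp (t • Z)) ≤ _ by
      rw [← nf_left (orth_skew hZ t) 1, Matrix.mul_one, ex_val])
  have k5 : ∀ t : ℝ, ∀ v ∈ sy g, ∃ A ∈ sy a, ∃ B ∈ sy b,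
      v = exp (t • Z) * A * exp (t • -Z) + B := fun t v hv => by
    obtain ⟨x, hx, y, hy, rfl⟩ := Submodule.mem_sup.1 (sym_split he
      (ha.tw (orth_skew hZ t) (hk t)).le hb.le
      (h.tw (orth_skew hZ t) (he _ (g.smul_mem t hZg))) hv)
    obtain ⟨A, hA, rfl⟩ := sy_tw (orth_skew hZ t) hx
    exact ⟨A, hA, y, hy, by rw [ex_val, ex_skew hZ]⟩
  have key := maslov_alg (traceLinearMap n ℝ ℝ) (fun x y => trace_mul_comm x y) (sy g) (sy a)
    (sy b) Z C k1 (fun _ k => ⟨ha.le k.1, k.2⟩) (fun _ k => ⟨hb.le k.1, k.2⟩) k2 k3 k4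
    (iso a ha h1) (iso b hb h2) k5
  exact ⟨hZg, hZ, fun S k1 k2 => sub_eq_zero.1 (key S ⟨k1, k2⟩)⟩

theorem core (he : ∀ X ∈ g, ex X ∈ G) (hg : Sub g g)
    (had : ∀ x ∈ G, ∀ X ∈ g, x.val * X * x⁻¹.val ∈ g) (ha : Sub g a) (hb : Sub g b)
    (h : Bdd G a b R) : a ⊔ b ⊔ cpt g = g := by
  have hle : a ⊔ b ⊔ cpt g ≤ g := sup_le (sup_le ha.le hb.le) fun _ k => k.1
  refine le_antisymm hle (le_of_orth hle fun Z hZ k => ?_)
  have h1 : ∀ A ∈ a, (A * Z).trace = 0 := fun A hA => by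
    simpa using k Aᵀ (Submodule.mem_sup_left (Submodule.mem_sup_left (ha.tr A hA)))
  have h2 : ∀ B ∈ b, (B * Z).trace = 0 := fun B hB => by
    simpa using k Bᵀ (Submodule.mem_sup_left (Submodule.mem_sup_right (hb.tr B hB)))
  have e : ∀ A : Matrix n n ℝ, Aᵀ = A → (A * Z).trace = 0 → (A * (Z + Zᵀ)).trace = 0 :=
    fun A k1 k2 => by
      rw [Matrix.mul_add, trace_add, k2, zero_add, ← trace_transpose, transpose_mul,
        transpose_transpose, k1, trace_mul_comm, k2]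
  have h3 := sym_zero he ha.le hb.le h (X := Z + Zᵀ)
    (by rw [transpose_add, transpose_transpose, add_comm]) (g.add_mem hZ (hg.tr Z hZ))
    (fun A hA => e A hA.2 (h1 A hA.1)) fun B hB => e B hB.2 (h2 B hB.1)
  exact eq_zero_of_nf (k Z (Submodule.mem_sup_right
    (skew_cpt he hg had ha hb h (eq_neg_of_add_eq_zero_right h3) hZ h1 h2))).le

end Pool.Agent.Lib.MP_320961_gt.Tr
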