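import Mathlib

/-! If `a + b` is the Lie algebra of a closed linear group, `exp a * exp b` is a neighbourhood
of the identity in the group. -/

namespace Pool.Agent.Lib.MP_320961_gt.Tr

open Filter Topology NormedSpace

section

variable {E : Type*} [NormedRing E] [NormedAlgebra ℝ E] [NormedAlgebra ℚ E] [CompleteSpace E]

/-- The exponential as a unit. -/
noncomputable def opn_ex (X : E) : Eˣ :=
  ⟨exp X, exp (-X), by rw [← exp_add_of_commute (Commute.refl X).neg_right]; simp,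
    by rw [← exp_add_of_commute (Commute.refl X).neg_left]; simp⟩

omit [NormedAlgebra ℝ E] in
theorem opn_cont : Continuous (opn_ex : E → Eˣ) :=
  Units.continuous_iff.2 ⟨exp_continuous, exp_continuous.comp continuous_neg⟩

omit [NormedAlgebra ℝ E] in
theorem opn_zsmul (G : Subgroup Eˣ) {X : E} (h : opn_ex X ∈ G) (k : ℤ) : opn_ex (k • X) ∈ G := by
  have h1 : ∀ k : ℕ, opn_ex (k • X) ∈ G := fun k => by
    rw [show opn_ex (k • X) = opn_ex X ^ k from
      Units.ext ((exp_nsmul k X).trans (Units.val_pow_eq_pow_val (opn_ex X) k).symm)]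
    exact G.pow_mem h k
  obtain ⟨k, rfl | rfl⟩ := k.eq_nat_or_neg
  · simpa using h1 k
  · rw [neg_smul, natCast_zsmul, show opn_ex (-(k • X)) = (opn_ex (k • X))⁻¹ from Units.ext rfl]
    exact G.inv_mem (h1 k)

theorem opn_small [FiniteDimensional ℝ E] (G : Subgroup Eˣ) (hG : IsClosed (G : Set Eˣ))
    (m : Submodule ℝ E) (hm : ∀ u ∈ m, (∀ t : ℝ, opn_ex (t • u) ∈ G) → u = 0) :
    ∀ᶠ Y : m in 𝓝 0, opn_ex (Y : E) ∈ G → Y = 0 := by
  by_contra h
  obtain ⟨Y, h1, h2⟩ := exists_seq_forall_of_frequently (not_eventually.1 h)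
  simp only [Classical.not_imp] at h2
  have h3 : ∀ j, 0 < ‖Y j‖ := fun j => norm_pos_iff.2 (h2 j).2
  obtain ⟨u, hu, s, hs, h4⟩ := (isCompact_sphere (0 : m) 1).tendsto_subseq
    (x := fun j => ‖Y j‖⁻¹ • Y j) fun j => by
      rw [mem_sphere_zero_iff_norm, norm_smul, norm_inv, norm_norm, inv_mul_cancel₀ (h3 j).ne']
  have h5 : Tendsto (fun j => ‖Y (s j)‖) atTop (𝓝 0) := by
    simpa using (h1.comp hs.tendsto_atTop).norm
  have h6 : (u : E) = 0 := hm u u.2 fun t => by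
    have h7 : Tendsto (fun j => (⌊t / ‖Y (s j)‖⌋ : ℝ) * ‖Y (s j)‖) atTop (𝓝 t) := by
      refine tendsto_of_tendsto_of_tendsto_of_le_of_le (g := fun j => t - ‖Y (s j)‖)
        (by simpa using h5.const_sub t) tendsto_const_nhds (fun j => ?_) fun j => ?_
      · have := mul_le_mul_of_nonneg_right (Int.sub_one_lt_floor (t / ‖Y (s j)‖)).le (h3 (s j)).le
        rwa [sub_mul, div_mul_cancel₀ _ (h3 _).ne', one_mul] at this
      · exact (le_div_iff₀ (h3 _)).1 (Int.floor_le _)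
    have h8 := (opn_cont.tendsto _).comp ((continuous_subtype_val.tendsto _).comp (h7.smul h4))
    refine hG.mem_of_tendsto h8 (Eventually.of_forall fun j => ?_)
    have := opn_zsmul G (h2 (s j)).1 ⌊t / ‖Y (s j)‖⌋
    rw [← Int.cast_smul_eq_zsmul ℝ] at this
    simp only [Function.comp_apply, smul_smul, mul_inv_cancel_right₀ (h3 (s j)).ne']
    exact this
  simp [show u = 0 from Subtype.ext h6] at hu

theorem opn_main [FiniteDimensional ℝ E] (G : Subgroup Eˣ) (hG : IsClosed (G : Set Eˣ))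
    (g a b : Submodule ℝ E) (hl : ∀ X, X ∈ g ↔ ∀ t : ℝ, ∃ x ∈ G, (x : E) = exp (t • X))
    (hab : a ⊔ b = g) :
    ∀ᶠ x : Eˣ in 𝓝 1, x ∈ G → ∃ A ∈ a, ∃ B ∈ b, (x : E) = exp A * exp B := by
  have h0 : ∀ X, X ∈ g ↔ ∀ t : ℝ, opn_ex (t • X) ∈ G := fun X => (hl X).trans <|
    forall_congr' fun t => ⟨fun ⟨x, h1, h2⟩ => by rwa [show opn_ex (t • X) = x from
      Units.ext h2.symm], fun h => ⟨_, h, rfl⟩⟩
  have h1 : ∀ X ∈ g, opn_ex X ∈ G := fun X h => by simpa using (h0 X).1 h 1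
  obtain ⟨m, hm⟩ := g.exists_isCompl
  have h2 := opn_small G hG m fun u hu h =>
    (Submodule.disjoint_def.1 hm.disjoint) u ((h0 u).2 h) hu
  let pa : (a × b × m) →L[ℝ] E := a.subtypeL.comp (.fst ℝ _ _)
  let pb : (a × b × m) →L[ℝ] E :=
    b.subtypeL.comp ((ContinuousLinearMap.fst ℝ _ _).comp (.snd ℝ _ _))
  let pm : (a × b × m) →L[ℝ] E :=
    m.subtypeL.comp ((ContinuousLinearMap.snd ℝ _ _).comp (.snd ℝ _ _))
  have h3 : ∀ p : (a × b × m) →L[ℝ] E, HasStrictFDerivAt (fun z => exp (p z)) p 0 := fun p => by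
    have h : HasStrictFDerivAt exp (1 : E →L[ℝ] E) (p 0) := by
      rw [map_zero]
      exact hasStrictFDerivAt_exp_zero
    exact h.comp 0 p.hasStrictFDerivAt
  have h4 := (((h3 pa).mul' (h3 pb)).mul' (h3 pm)).map_nhds_eq_of_surj (by
    refine LinearMap.range_eq_top.2 fun X => ?_
    have hX : X ∈ g ⊔ m := by rw [hm.sup_eq_top]; trivial
    obtain ⟨y, hy, z, hz, rfl⟩ := Submodule.mem_sup.1 hX
    obtain ⟨A, hA, B, hB, rfl⟩ := Submodule.mem_sup.1 (hab ▸ hy : y ∈ a ⊔ b)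
    refine ⟨(⟨A, hA⟩, ⟨B, hB⟩, ⟨z, hz⟩), ?_⟩
    simp [pa, pb, pm]
    abel)
  have h5 : ∀ᶠ z : a × b × m in 𝓝 0, opn_ex (z.2.2 : E) ∈ G → z.2.2 = 0 :=
    (continuous_snd.snd.tendsto' 0 0 rfl).eventually h2
  have h6 := image_mem_map (m := ((fun z => exp (pa z)) * fun z => exp (pb z)) *
    fun z => exp (pm z)) h5
  rw [h4] at h6
  filter_upwards [(Units.continuous_val.tendsto' 1 _ (by simp)).eventually h6] with x hx hxG
  obtain ⟨⟨A, B, Y⟩, h7, h8⟩ := hx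
  have h9 : opn_ex (A : E) * opn_ex (B : E) * opn_ex (Y : E) = x := Units.ext h8
  have h10 : Y = 0 := h7 ((G.mul_mem_cancel_left (G.mul_mem
    (h1 _ (hab ▸ Submodule.mem_sup_left A.2))
    (h1 _ (hab ▸ Submodule.mem_sup_right B.2)))).1 (h9 ▸ hxG))
  exact ⟨A, A.2, B, B.2, by simp [← h9, h10, opn_ex]⟩

end

theorem nhds_one {n : Type} [Fintype n] [DecidableEq n] (G : Subgroup (GL n ℝ))
    (hG : IsClosed (G : Set (GL n ℝ))) (g a b : Submodule ℝ (Matrix n n ℝ))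
    (hl : ∀ X, X ∈ g ↔ ∀ t : ℝ, ∃ x ∈ G, (x : Matrix n n ℝ) = exp (t • X)) (hab : a ⊔ b = g) :
    ∀ᶠ x : GL n ℝ in 𝓝 1, x ∈ G → ∃ A ∈ a, ∃ B ∈ b, (x : Matrix n n ℝ) = exp A * exp B :=
  open scoped Matrix.Norms.Operator in opn_main G hG g a b hl hab

end Pool.Agent.Lib.MP_320961_gt.Tr
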