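import Pool.Agent.Lib.MP_320961_gt.Tr.Core
import Pool.Agent.Lib.MP_320961_gt.Tr.Open

/-! From the Lie algebra decomposition to open double cosets. -/

namespace Pool.Agent.Lib.MP_320961_gt.Tr

open Matrix NormedSpace Filter Topology

variable {n : Type} [Fintype n] [DecidableEq n]

/-- A linear group with Lie algebra `g` and Cartan decomposition. -/
structure Red (G : Subgroup (GL n ℝ)) (g : Submodule ℝ (Matrix n n ℝ)) : Prop where
  closed : IsClosed (G : Set (GL n ℝ))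
  lie : ∀ X, X ∈ g ↔ ∀ t : ℝ, ∃ x ∈ G, x.val = exp (t • X)
  tr : ∀ X ∈ g, Xᵀ ∈ g
  cartan : ∀ x ∈ G, ∃ k : Matrix n n ℝ, ∃ Y ∈ g, kᵀ * k = 1 ∧ Yᵀ = Y ∧ x.val = k * exp Y

variable {G H L : Subgroup (GL n ℝ)} {g h l : Submodule ℝ (Matrix n n ℝ)} {R : ℝ}

theorem Red.ex_mem (hG : Red G g) (X : Matrix n n ℝ) (hX : X ∈ g) : ex X ∈ G := by
  obtain ⟨x, hx, e⟩ := (hG.lie X).1 hX 1
  rwa [show ex X = x from Units.ext (by rw [e, one_smul, ex_val])]

theorem Red.ad (hG : Red G g) (x : GL n ℝ) (hx : x ∈ G) (X : Matrix n n ℝ) (hX : X ∈ g) :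
    x.val * X * x⁻¹.val ∈ g := (hG.lie _).2 fun t =>
  ⟨x * ex (t • X) * x⁻¹, G.mul_mem (G.mul_mem hx (hG.ex_mem _ (g.smul_mem t hX))) (G.inv_mem hx),
    by rw [← Matrix.smul_mul, ← Matrix.mul_smul, Matrix.exp_units_conj]; rfl⟩

open scoped Matrix.Norms.Operator in
theorem Red.br (hG : Red G g) (X : Matrix n n ℝ) (hX : X ∈ g) (Y : Matrix n n ℝ) (hY : Y ∈ g) :
    X * Y - Y * X ∈ g := by
  have d := ((hasDerivAt_exp_smul_const X (0 : ℝ)).mul_const Y).mul
    (hasDerivAt_exp_smul_const (-X) (0 : ℝ))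
  have m := g.closed_of_finiteDimensional.mem_of_tendsto (hasDerivAt_iff_tendsto_slope.1 d)
    (Eventually.of_forall fun t => by
      have k : ∀ s : ℝ, exp (s • X) * Y * exp (s • -X) ∈ g := fun s => by
        rw [smul_neg]
        exact hG.ad _ (hG.ex_mem _ (g.smul_mem s hX)) Y hY
      exact g.smul_mem _ (g.sub_mem (k t) (k 0)))
  simpa [sub_eq_add_neg] using m

theorem Red.sub (hG : Red G g) (hH : Red H h) (hle : H ≤ G) : Sub g h :=
  ⟨fun X hX => (hG.lie X).2 fun t => ((hH.lie X).1 hX t).imp fun _ k => ⟨hle k.1, k.2⟩,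
    hH.tr, hH.br⟩

theorem Red.left (hG : Red G g) {x : GL n ℝ} (hx : x ∈ G) :
    ∃ k ∈ G, ∃ Y ∈ sy g, k.valᵀ * k.val = 1 ∧ x = k * ex Y := by
  obtain ⟨k, Y, hY, h1, h2, h3⟩ := hG.cartan x hx
  refine ⟨x * (ex Y)⁻¹, G.mul_mem hx (G.inv_mem (hG.ex_mem Y hY)), Y, ⟨hY, h2⟩, ?_, by simp⟩
  rwa [Units.val_mul, h3, Matrix.mul_assoc, ← ex_val, Units.mul_inv, Matrix.mul_one]

theorem bdd_of (hH : Red H h) (hL : Red L l)
    (hR : ∀ x ∈ G, ∃ a ∈ L, ∃ b ∈ H, sz (a * x * b) ≤ R) : Bdd G l h R := fun x hx => by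
  obtain ⟨a, ha, b, hb, k⟩ := hR x hx
  obtain ⟨k₁, -, A, hA, o₁, rfl⟩ := hL.left ha
  obtain ⟨k₂, -, B, hB, o₂, e⟩ := hH.left (H.inv_mem hb)
  rw [inv_eq_iff_eq_inv.1 e, _root_.mul_inv_rev, ex_inv, ← mul_assoc, sz_right (orth_inv o₂),
    mul_assoc k₁, mul_assoc k₁, sz_left o₁] at k
  exact ⟨A, hA, -B, (sy h).neg_mem hB, k⟩

theorem Red.ad_orth (hG : Red G g) {k : GL n ℝ} (hk : k ∈ G) (o : k.valᵀ * k.val = 1) :
    ∀ X ∈ g, k.val * X * k.valᵀ ∈ g := fun X hX => inv_orth o ▸ hG.ad k hk X hX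

/-- The closure of a double coset contains an orthogonal element. -/
theorem exists_orth (hG : Red G g) (hH : Red H h) (hL : Red L l) (hHG : H ≤ G) (hLG : L ≤ G)
    (hB : Bdd G l h R) {x : GL n ℝ} (hx : x ∈ G) : ∃ k ∈ G, k.valᵀ * k.val = 1 ∧
      k ∈ closure {y | ∃ a ∈ L, ∃ b ∈ H, y = a * x * b} := by
  set D := {y | ∃ a ∈ L, ∃ b ∈ H, y = a * x * b} with hD
  have hxD : x ∈ closure D := subset_closure ⟨1, L.one_mem, 1, H.one_mem, by simp⟩
  obtain ⟨y, hy, hmin⟩ := ((isCompact_sz (sz x)).inter_left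
    (isClosed_closure (s := D))).exists_isMinOn ⟨x, hxD, le_refl (sz x)⟩ continuous_sz.continuousOn
  have hm : ∀ z ∈ closure D, sz y ≤ sz z := fun z hz => by
    rcases le_total (sz z) (sz x) with k | k
    · exact hmin ⟨hz, k⟩
    · exact le_trans hy.2 k
  have hyG : y ∈ G := closure_minimal (s := D) (fun _ ⟨a, ha, b, hb, e⟩ =>
    e ▸ G.mul_mem (G.mul_mem (hLG ha) hx) (hHG hb)) hG.closed hy.1
  have hinv : ∀ a ∈ L, ∀ b ∈ H, a * y * b ∈ closure D := fun a ha b hb =>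
    map_mem_closure (f := fun z => a * z * b) (by fun_prop) hy.1 fun _ ⟨a', ha', b', hb', e⟩ =>
      ⟨a * a', L.mul_mem ha ha', b' * b, H.mul_mem hb' hb, by rw [e]; simp only [mul_assoc]⟩
  have crit : ∀ A ∈ sy l, ∀ B ∈ sy h, 0 ≤ (A * Dl y).trace + (B * Dr y).trace :=
    fun A hA B hB => by
      have c : Continuous fun s : ℝ => ex (s • A) * y * ex (s • B) :=
        ((continuous_ex.comp (continuous_id.smul continuous_const)).mul continuous_const).mul
          (continuous_ex.comp (continuous_id.smul continuous_const))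
      have k := lim_ge (φ := fun s : ℝ => (A * Dl (ex (s • A) * y * ex (s • B))).trace +
          (B * Dr (ex (s • A) * y * ex (s • B))).trace) (c := 0)
        ((continuous_const.matrix_mul (continuous_Dl.comp c)).matrix_trace.add
          (continuous_const.matrix_mul (continuous_Dr.comp c)).matrix_trace) fun s hs => by
        have k1 := sz_ge ((sy l).neg_mem ((sy l).smul_mem s hA)).2
          ((sy h).neg_mem ((sy h).smul_mem s hB)).2 (ex (s • A) * y * ex (s • B))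
        have k2 := hm _ (hinv _ (hL.ex_mem _ (l.smul_mem s hA.1)) _
          (hH.ex_mem _ (h.smul_mem s hB.1)))
        rw [← ex_inv, ← ex_inv, mul_assoc (ex (s • A))⁻¹, mul_inv_cancel_right,
          inv_mul_cancel_left, Matrix.neg_mul, Matrix.neg_mul, trace_neg, trace_neg,
          Matrix.smul_mul, Matrix.smul_mul, trace_smul, trace_smul, smul_eq_mul,
          smul_eq_mul] at k1
        exact le_of_mul_le_mul_left (by linarith) hs
      simpa only [zero_smul, ex_zero, one_mul, mul_one] using k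
  obtain ⟨k, hk, S, hS, o, rfl⟩ := hG.left hyG
  have o' := orth_inv o
  obtain ⟨A', hA', B, hB', e⟩ := Submodule.mem_sup.1 (sym_split hG.ex_mem
    ((hG.sub hL hLG).tw o' (hG.ad_orth (G.inv_mem hk) o')).le (hG.sub hH hHG).le
    (hB.tw o' (G.inv_mem hk)) ((sy g).neg_mem hS))
  obtain ⟨A, hA, rfl⟩ := sy_tw o' hA'
  have k1 := crit A hA B hB'
  rw [Dl_left o, Dr_left o, ← Dl_ex hS.2, ← Matrix.mul_assoc, trace_mul_comm _ k.valᵀ,
    ← Matrix.mul_assoc, ← Matrix.mul_assoc, ← trace_add, ← Matrix.add_mul] at k1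
  rw [inv_orth o, transpose_transpose] at e
  have k2 := klein (S := 0) transpose_zero hS.2
  rw [zero_sub, ← e, ex_zero] at k2
  have k3 : S = 0 := eq_zero_of_nf (by linarith [coer hS.2])
  rw [k3, ex_zero, mul_one] at hy
  exact ⟨k, hk, o, hy.1⟩

/-- Double cosets are open. -/
theorem open_coset (hG : Red G g) (hH : Red H h) (hL : Red L l) (hHG : H ≤ G) (hLG : L ≤ G)
    (hB : Bdd G l h R) (hc : cpt g ≤ l) {x : GL n ℝ} (hx : x ∈ G) :
    ∀ᶠ w in 𝓝 x, w ∈ G → ∃ a ∈ L, ∃ b ∈ H, w = a * x * b := by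
  obtain ⟨k, hk, o, hcl⟩ := exists_orth hG hH hL hHG hLG hB hx
  have o' := orth_inv o
  have s1 := (hG.sub hL hLG).tw o' (hG.ad_orth (G.inv_mem hk) o')
  have h1 := core hG.ex_mem (hG.sub hG le_rfl) hG.ad s1 (hG.sub hH hHG) (hB.tw o' (G.inv_mem hk))
  have e1 : ∀ X : Matrix n n ℝ, k.valᵀ * (k.val * X) = X := fun X => by
    rw [← Matrix.mul_assoc, o, Matrix.one_mul]
  have e2 : ∀ X : Matrix n n ℝ, k.val * (k.valᵀ * X) = X := fun X => by
    rw [← Matrix.mul_assoc, mul_eq_one_comm.1 o, Matrix.one_mul]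
  have h2 : cpt g ≤ tw k⁻¹ l := fun X hX => mem_tw.2 ⟨k.val * X * k.valᵀ, hc
    ⟨hG.ad_orth hk o X hX.1, by
      simp only [transpose_mul, transpose_transpose, hX.2.1, Matrix.mul_assoc, Matrix.neg_mul,
        Matrix.mul_neg], fun S k1 k2 => by
      have k3 := hX.2.2 _ (hG.ad_orth (G.inv_mem hk) o' S k1) (by
        simp only [transpose_mul, transpose_transpose, k2, Matrix.mul_assoc])
      rw [inv_orth o, transpose_transpose] at k3
      simpa only [Matrix.mul_assoc, e2, mul_eq_one_comm.1 o, Matrix.mul_one] using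
        congrArg (fun Y => k.val * Y * k.valᵀ) k3⟩, by
    simp only [inv_orth o, transpose_transpose, Matrix.mul_assoc, e1, o, Matrix.mul_one]⟩
  rw [sup_eq_left.2 (h2.trans le_sup_left)] at h1
  have h3 : ∀ᶠ z in 𝓝 k, z ∈ G → ∃ a ∈ L, ∃ b ∈ H, z = a * k * b := by
    have t : Tendsto (fun z => k⁻¹ * z) (𝓝 k) (𝓝 1) :=
      inv_mul_cancel k ▸ (continuous_const.mul continuous_id).tendsto k
    filter_upwards [t.eventually (nhds_one G hG.closed g _ _ hG.lie h1)] with z hz hzG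
    obtain ⟨A', hA', B, hB', e⟩ := hz (G.mul_mem (G.inv_mem hk) hzG)
    obtain ⟨A, hA, rfl⟩ := mem_tw.1 hA'
    have e' : k⁻¹ * z = ex (k⁻¹.val * A * k⁻¹.valᵀ) * ex B := Units.ext e
    rw [ex_orth o', inv_inv, mul_assoc, mul_assoc, mul_right_inj] at e'
    exact ⟨ex A, hL.ex_mem A hA, ex B, hH.ex_mem B hB', by rw [e', mul_assoc]⟩
  obtain ⟨_, ⟨a, ha, b, hb, rfl⟩, hz⟩ :=
    ((mem_closure_iff_frequently.1 hcl).and_eventually h3).exists
  obtain ⟨a', ha', b', hb', e⟩ := hz (G.mul_mem (G.mul_mem (hLG ha) hx) (hHG hb))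
  have e3 : k = a'⁻¹ * a * x * (b * b'⁻¹) := by
    rw [mul_assoc a'⁻¹, ← mul_assoc _ b, mul_assoc a'⁻¹, e]
    group
  have t : Tendsto (fun w => a'⁻¹ * a * w * (b * b'⁻¹)) (𝓝 x) (𝓝 k) :=
    e3 ▸ ((continuous_const.mul continuous_id).mul continuous_const).tendsto x
  have m1 := L.mul_mem (L.inv_mem ha') ha
  have m2 := H.mul_mem hb (H.inv_mem hb')
  filter_upwards [t.eventually h3] with w hw hwG
  obtain ⟨c, hc', d, hd, e4⟩ := hw (G.mul_mem (G.mul_mem (hLG m1) hwG) (hHG m2))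
  refine ⟨(a'⁻¹ * a)⁻¹ * c * (a'⁻¹ * a), L.mul_mem (L.mul_mem (L.inv_mem m1) hc') m1,
    b * b'⁻¹ * d * (b * b'⁻¹)⁻¹, H.mul_mem (H.mul_mem m2 hd) (H.inv_mem m2), ?_⟩
  calc w = (a'⁻¹ * a)⁻¹ * (a'⁻¹ * a * w * (b * b'⁻¹)) * (b * b'⁻¹)⁻¹ := by group
    _ = _ := by rw [e4, e3]; group

/-- A compact double coset space has representatives of bounded size. -/
theorem exists_bound (H Γ : Subgroup G) (a : G)
    [CompactSpace (MulAction.orbitRel.Quotient Γ (G ⧸ H))] :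
    ∃ R : ℝ, ∀ x : G, ∃ c ∈ Γ, ∃ b ∈ H, sz (a⁻¹ * c * a * x * b : G).val ≤ R := by
  let π : G → MulAction.orbitRel.Quotient Γ (G ⧸ H) := fun x => Quotient.mk'' (x : G ⧸ H)
  have : ContinuousConstSMul Γ (G ⧸ H) := ⟨fun c => continuous_const_smul (c : G)⟩
  have hπ : IsOpenMap π := isOpenMap_quotient_mk'_mul.comp QuotientGroup.isOpenMap_coe
  have c : Continuous fun z : G => sz (a⁻¹ * z : G).val :=
    continuous_sz.comp (continuous_subtype_val.comp (continuous_const.mul continuous_id))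
  obtain ⟨m, hm⟩ := isCompact_univ.elim_directed_cover
    (fun m : ℕ => π '' {z | sz (a⁻¹ * z : G).val < m})
    (fun m => hπ _ (isOpen_lt c continuous_const))
    (fun q _ => by
      obtain ⟨q, rfl⟩ := Quotient.mk''_surjective q
      obtain ⟨z, rfl⟩ := QuotientGroup.mk_surjective q
      obtain ⟨m, hm⟩ := exists_nat_gt (sz (a⁻¹ * z : G).val)
      exact Set.mem_iUnion.2 ⟨m, z, hm, rfl⟩)
    (Monotone.directed_le fun i j hij => Set.image_mono fun z (hz : _ < (i : ℝ)) =>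
      show _ < (j : ℝ) from hz.trans_le (Nat.cast_le.2 hij))
  refine ⟨m, fun x => ?_⟩
  obtain ⟨z, hz, e⟩ := hm (Set.mem_univ (π (a * x)))
  obtain ⟨c, hc⟩ := MulAction.orbitRel_apply.1 (Quotient.exact' e)
  have k : ((c.val * (a * x) : G) : G ⧸ H) = (z : G ⧸ H) := hc
  refine ⟨c, c.2, _, QuotientGroup.eq.1 k, le_of_eq_of_le ?_ (le_of_lt hz)⟩
  congr 2
  group

end Pool.Agent.Lib.MP_320961_gt.Tr
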